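import Pool.Agent.N767.HN.NM1

/-! Project HN (helper162), task HN/NM (helper767): no moving curves, main part (generalisation of
`N624/CV/N2.lean`, `N4.lean`). -/

set_option autoImplicit false
set_option linter.unusedSectionVars false

open FF Pool.Agent.W603.LV Pool.Agent.Y184.NT Pool.Agent.N162.BC IntermediateField
open Pool.Agent.N162.CV (StDERa StDERb StDERc StRES)
open Pool.Agent.N162.HN (Good StNM)
open Pool.Agent.N624.CV (Ge_mul0 Ge_mul1 stab mem_stab Ge_pow0 Ge_inv_one ge_der)
open Pool.Agent.Y988.NT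

namespace Pool.Agent.N767.HN

section

variable {Ω E : Type} [Field Ω] [Algebra ℂ Ω] [Field E] [Algebra ℂ E] [Algebra Ω E]
  [IsScalarTower ℂ Ω E] [IsAlgClosed Ω] [CharZero Ω] [IsFF Ω E] {n : ℕ}

/-- the gradient at `Y` applied to `c` -/
noncomputable def grd {K : Type} [Field K] [Algebra ℂ K] (F : MvPolynomial (Fin (n + 2)) ℂ)
    (Y c : Fin (n + 2) → K) : K :=
  ∑ l, MvPolynomial.aeval Y (MvPolynomial.pderiv l F) * c l

/-- a constant vector with a gradient of value `1` -/
lemma exists_unit_c {F : MvPolynomial (Fin (n + 2)) ℂ} (hs : Sm F) {v : Place Ω E}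
    {Y : Fin (n + 2) → E} (hY : ∀ j, Ge v 0 (Y j)) {j0 : Fin (n + 2)} (hj0 : Y j0 = 1) :
    ∃ c : Fin (n + 2) → Ω, grd F Y (fun l => algebraMap Ω E (c l)) ≠ 0 ∧
      Ge v 0 (grd F Y fun l => algebraMap Ω E (c l))⁻¹ := by
  choose p hp using fun j => exists_const v (hY j)
  have hp0 : p j0 ≠ 0 := by
    intro h0
    have := hp j0
    rw [hj0, h0, map_zero, sub_zero] at this
    rcases this with h | h
    · exact one_ne_zero h
    · rw [v.ord_one] at h
      omega
  obtain ⟨c, hc⟩ := exists_c (n := n) hs (x := p) (j0 := j0) hp0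
  refine ⟨c, ?_⟩
  have h1 : Ge v 1 (grd F Y (fun l => algebraMap Ω E (c l)) - 1) := by
    have e : grd F Y (fun l => algebraMap Ω E (c l)) - 1 =
        ∑ l, (MvPolynomial.aeval Y (MvPolynomial.pderiv l F) -
          algebraMap Ω E (MvPolynomial.aeval p (MvPolynomial.pderiv l F))) *
            algebraMap Ω E (c l) := by
      unfold grd
      have h2 := congrArg (algebraMap Ω E) hc
      rw [map_one, map_sum] at h2
      simp only [sub_mul]
      rw [Finset.sum_sub_distrib]
      congr 1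
      rw [← h2]
      exact Finset.sum_congr rfl fun l _ => map_mul _ _ _
    rw [e]
    exact Ge.sum _ _ fun l _ => Ge_mul1 (aeval_congr hY hp _).2 (Ge.const _)
  exact Ge_inv_one h1

/-- the scaling of one row -/
lemma W_scale_one {R : Type} [CommRing R] (i₀ : Fin n) (r : R) (c Y : Fin (n + 2) → R)
    (A : Fin n → Fin (n + 2) → R) :
    W c Y (fun i j => (if i = i₀ then r else 1) * A i j) = r * W c Y A := by
  have h := W_scale 1 1 (fun i : Fin n => if i = i₀ then r else 1) c Y A
  rw [Finset.prod_ite_eq' Finset.univ i₀ (fun _ => r), if_pos (Finset.mem_univ _), one_mul,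
    one_mul] at h
  simpa using h

variable (i₀ : Fin n) (D : Fin n → Derivation ℂ Ω Ω) (δ : Fin n → Derivation ℂ E E)
  (dx : Derivation Ω E E)

/-- the hypotheses on the vector fields -/
structure Hy (X : Fin (n + 2) → E) : Prop where
  zero : D i₀ = 0
  ext : ∀ i b, δ i (algebraMap Ω E b) = algebraMap Ω E (D i b)
  kill : ∀ i, i ≠ i₀ → δ i (X 1) = 0
  dx1 : dx (X 1) = 1
  eq : ∀ g, δ i₀ g = dx g

variable {i₀ D δ dx}

lemma fin_est (ha : StDERa) (hb : StDERb) {F : MvPolynomial (Fin (n + 2)) ℂ} (hs : Sm F)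
    {X : Fin (n + 2) → E} (h1 : X 0 = 1) (htr : Transcendental Ω (X 1)) (H : Hy i₀ D δ dx X)
    {h : E} (hh : ∀ c, W c X (fun i j => δ i (X j)) = grd F X c * h) {v : Place Ω E}
    (hv : ∀ j, Ge v 0 (X j)) {a : Ω} (hva : Ge v 1 (X 1 - algebraMap Ω E a)) :
    Ge v 1 ((X 1 - algebraMap Ω E a) * h) := by
  obtain ⟨c, hc0, hc1⟩ := exists_unit_c hs hv h1
  set t : E := X 1 - algebraMap Ω E a with ht
  have ht0 : t ≠ 0 := by
    intro h0
    apply htr
    rw [sub_eq_zero.1 h0]
    exact isAlgebraic_algebraMap a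
  have hto : 0 < v.ord t := by
    rcases hva with h0 | h0
    · exact absurd h0 ht0
    · omega
  have hdxt : dx t = 1 := by
    rw [ht, map_sub, H.dx1, Derivation.map_algebraMap, sub_zero]
  set δ' : Fin n → Derivation ℂ E E := fun i =>
    δ i + algebraMap Ω E (D i a) • (dx.restrictScalars ℂ) with hδ'
  have hδ'a : ∀ i g, δ' i g = δ i g + algebraMap Ω E (D i a) * dx g := fun i g => rfl
  have hδ'c : ∀ i b, δ' i (algebraMap Ω E b) = algebraMap Ω E (D i b) := by
    intro i b
    rw [hδ'a, H.ext, Derivation.map_algebraMap, mul_zero, add_zero]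
  have hδ't : ∀ i, i ≠ i₀ → δ' i t = 0 := by
    intro i hi
    rw [hδ'a, hdxt, ht, map_sub, H.kill i hi, H.ext]
    ring
  have hreg : ∀ i j, i ≠ i₀ → Ge v 0 (δ' i (X j)) := fun i j hi =>
    ha Ω E (D i) (δ' i) (hδ'c i) t v hto (hδ't i hi) 0 (X j) (hv j)
  have hD0 : D i₀ a = 0 := by
    rw [H.zero]; rfl
  have hlast : ∀ j, Ge v 1 (t * δ' i₀ (X j)) := fun j => by
    rw [hδ'a, hD0, map_zero, zero_mul, add_zero, H.eq]
    exact ge_der hb dx hto hdxt (hv j)
  have e : t * h = W (fun l => algebraMap Ω E (c l)) X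
      (fun i j => (if i = i₀ then t else 1) * δ' i (X j)) *
        (grd F X fun l => algebraMap Ω E (c l))⁻¹ := by
    rw [W_scale_one i₀ t _ _ (fun i j => δ' i (X j))]
    have e1 : W (fun l => algebraMap Ω E (c l)) X (fun i j => δ' i (X j)) =
        W (fun l => algebraMap Ω E (c l)) X (fun i j => δ i (X j)) := by
      have h3 := W_add_row i₀ (fun i => algebraMap Ω E (D i a)) (by
        change algebraMap Ω E (D i₀ a) = 0
        rw [hD0, map_zero]) (fun l => algebraMap Ω E (c l)) X (fun i j => δ i (X j))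
      rw [← h3]
      congr 1
      funext i j
      rw [hδ'a, H.eq]
    rw [e1, hh]
    field_simp
  rw [e]
  refine Ge_mul1 (Ge_det i₀ (fun j => Ge.const _) hv (fun i j hi => ?_) fun j => ?_) hc1
  · rw [if_neg hi, one_mul]
    exact hreg i j hi
  · rw [if_pos rfl]
    exact hlast j

lemma inf_est (ha : StDERa) (hb : StDERb) {F : MvPolynomial (Fin (n + 2)) ℂ} (hs : Sm F) {d : ℕ}
    (hFd : F.IsHomogeneous d) {X : Fin (n + 2) → E} (H : Hy i₀ D δ dx X) {h : E}
    (hh : ∀ c, W c X (fun i j => δ i (X j)) = grd F X c * h) {v : Place Ω E}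
    (hx : v.ord (X 1) < 0) (hv : ∀ j, Ge v 0 (X j / X 1)) {k : ℕ} (hk : k + n + 2 ≤ d) :
    Ge v 1 (X 1 ^ (k + 1) * h) := by
  have hx0 : X 1 ≠ 0 := by
    intro h0
    rw [h0, v.ord_zero] at hx
    omega
  set X' : Fin (n + 2) → E := fun j => X j / X 1 with hX'
  have hX'1 : X' 1 = 1 := div_self hx0
  have hXX' : ∀ j, X j = X 1 * X' j := fun j => by
    rw [hX']
    field_simp
  obtain ⟨c, hc0, hc1⟩ := exists_unit_c hs (Y := X') hv hX'1
  set s : E := (X 1)⁻¹ with hs'
  have hso : 0 < v.ord s := by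
    rw [hs', v.ord_inv]
    omega
  have hδs : ∀ i, i ≠ i₀ → δ i s = 0 := by
    intro i hi
    rw [hs', Derivation.leibniz_inv, H.kill i hi, smul_zero]
  set ds : Derivation Ω E E := (-(X 1) ^ 2) • dx with hds
  have hdsa : ∀ g, ds g = (-(X 1) ^ 2) * dx g := fun g => rfl
  have hdss : ds s = 1 := by
    rw [hdsa, hs', Derivation.leibniz_inv, H.dx1, smul_eq_mul]
    field_simp
  have hreg : ∀ i j, i ≠ i₀ → Ge v 0 (δ i (X' j)) := fun i j hi =>
    ha Ω E (D i) (δ i) (H.ext i) s v hso (hδs i hi) 0 (X' j) (hv j)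
  have hlast : ∀ j, Ge v 1 (X 1 * δ i₀ (X' j)) := by
    intro j
    have h1 := (ge_der hb ds hso hdss (hv j)).neg
    rw [hdsa] at h1
    have e : -(s * (-X 1 ^ 2 * dx (X' j))) = X 1 * δ i₀ (X' j) := by
      rw [hs', H.eq]
      field_simp
    rwa [e] at h1
  have hgr : grd F X (fun l => algebraMap Ω E (c l)) =
      X 1 ^ (d - 1) * grd F X' (fun l => algebraMap Ω E (c l)) := by
    unfold grd
    rw [Finset.mul_sum]
    refine Finset.sum_congr rfl fun l _ => ?_
    have h1 := aeval_smul_form (hFd.pderiv (i := l)) (X 1) X'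
    have h2 : (fun l => X 1 * X' l) = X := by
      ext j
      exact (hXX' j).symm
    rw [h2] at h1
    rw [h1]
    ring
  have hW : W (fun l => algebraMap Ω E (c l)) X (fun i j => δ i (X j)) =
      X 1 ^ (n + 1) * W (fun l => algebraMap Ω E (c l)) X' (fun i j => δ i (X' j)) := by
    have h3 := W_scale 1 (X 1) (fun _ : Fin n => X 1) (fun l => algebraMap Ω E (c l)) X'
      (fun i j => δ i (X' j))
    rw [Finset.prod_const, Finset.card_univ, Fintype.card_fin, one_mul] at h3
    have h4 := W_add_Y (fun i => if i = i₀ then s else 0) (fun l => algebraMap Ω E (c l))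
      (fun j => X 1 * X' j) (fun i j => X 1 * δ i (X' j))
    have e0 : X 1 ^ (n + 1) = X 1 * X 1 ^ n := by ring
    rw [e0, ← h3]
    have e1 : (fun l => (1 : E) * algebraMap Ω E (c l)) = fun l => algebraMap Ω E (c l) := by
      funext l
      rw [one_mul]
    rw [e1, ← h4]
    have e2 : (fun j => X 1 * X' j) = X := by
      funext j
      exact (hXX' j).symm
    have e3 : (fun i j => X 1 * δ i (X' j) + (if i = i₀ then s else 0) * (X 1 * X' j)) =
        fun i j => δ i (X j) := by
      funext i j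
      rw [hXX' j, Derivation.leibniz, smul_eq_mul, smul_eq_mul]
      by_cases hi : i = i₀
      · subst hi
        rw [if_pos rfl, H.eq (X 1), H.dx1, hs']
        field_simp
      · rw [if_neg hi, H.kill i hi]
        ring
    rw [e3]
    exact congrArg (fun Y : Fin (n + 2) → E => W (fun l => algebraMap Ω E (c l)) Y
      (fun i j => δ i (X j))) e2.symm
  have hrel := hh (fun l => algebraMap Ω E (c l))
  rw [hW, hgr] at hrel
  have e : X 1 ^ (k + 1) * h = s ^ (d - (n + 2) - k) *
      (W (fun l => algebraMap Ω E (c l)) X'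
        (fun i j => (if i = i₀ then X 1 else 1) * δ i (X' j)) *
        (grd F X' fun l => algebraMap Ω E (c l))⁻¹) := by
    rw [W_scale_one i₀ (X 1) _ _ (fun i j => δ i (X' j))]
    obtain ⟨m, rfl⟩ : ∃ m, d = m + k + (n + 2) := ⟨d - (n + 2) - k, by omega⟩
    have e1 : m + k + (n + 2) - (n + 2) - k = m := by omega
    have e2 : m + k + (n + 2) - 1 = (n + 1) + (m + k) := by omega
    rw [e1]
    rw [e2, pow_add (X 1) (n + 1) (m + k)] at hrel
    have h3 : X 1 ^ (n + 1) ≠ 0 := pow_ne_zero _ hx0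
    have h4 : W (fun l => algebraMap Ω E (c l)) X' (fun i j => δ i (X' j)) =
        X 1 ^ (m + k) * grd F X' (fun l => algebraMap Ω E (c l)) * h := by
      apply mul_left_cancel₀ h3
      rw [hrel]
      ring
    have h5 : X 1 ^ m * s ^ m = 1 := by
      rw [hs', ← mul_pow, mul_inv_cancel₀ hx0, one_pow]
    have hG := mul_inv_cancel₀ hc0
    rw [h4]
    linear_combination (-(X 1 ^ (k + 1) * h) * (grd F X' fun l => algebraMap Ω E (c l)) *
      (grd F X' fun l => algebraMap Ω E (c l))⁻¹) * h5 - (X 1 ^ (k + 1) * h) * hG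
  rw [e]
  refine Ge_mul0 ?_ (Ge_mul1 (Ge_det i₀ (fun j => Ge.const _) hv (fun i j hi => ?_)
    fun j => ?_) hc1)
  · have h1 : Ge v 0 s := Or.inr hso.le
    have := h1.pow (d - (n + 2) - k)
    rwa [mul_zero] at this
  · rw [if_neg hi, one_mul]
    exact hreg i j hi
  · rw [if_pos rfl]
    exact hlast j

/-- products of regular functions -/
lemma Ge_list {v : Place Ω E} (y : Fin n → E) (hy : ∀ l, Ge v 0 (y l)) (s : List (Fin n)) :
    Ge v 0 (s.map y).prod := by
  induction s with
  | nil => simpa using Ge.one (P := v)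
  | cons a s ih =>
    rw [List.map_cons, List.prod_cons]
    exact Ge_mul0 (hy a) ih

lemma list_div (y : Fin n → E) {x : E} (hx : x ≠ 0) (s : List (Fin n)) :
    (s.map y).prod = (s.map fun l => y l / x).prod * x ^ s.length := by
  induction s with
  | nil => simp
  | cons a s ih =>
    rw [List.map_cons, List.prod_cons, List.map_cons, List.prod_cons, List.length_cons, ih,
      pow_succ]
    field_simp

/-- the traces vanish -/
lemma trace_zero (ha : StDERa) (hb : StDERb) (hr : StRES)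
    {F : MvPolynomial (Fin (n + 2)) ℂ} (hs : Sm F) {d : ℕ} (hFd : F.IsHomogeneous d)
    {X : Fin (n + 2) → E} (hX : Good Ω X) (H : Hy i₀ D δ dx X) {h : E}
    (hh : ∀ c, W c X (fun i j => δ i (X j)) = grd F X c * h)
    (s : List (Fin n)) (hs2 : s.length + n + 2 ≤ d) :
    Algebra.trace Ω⟮X 1⟯ E ((s.map fun l : Fin n => X l.succ.succ).prod * h) = 0 := by
  have hex : ∀ v : Place Ω E, ∃ a : Ω, Ge v 0 (X 1) → Ge v 1 (X 1 - algebraMap Ω E a) := by
    intro v
    by_cases h0 : Ge v 0 (X 1)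
    · obtain ⟨a, h1⟩ := exists_const v h0
      exact ⟨a, fun _ => h1⟩
    · exact ⟨0, fun h1 => absurd h1 h0⟩
  choose a hav using hex
  refine (hr Ω E (X 1) hX.tr ((s.map fun l : Fin n => X l.succ.succ).prod * h) a (fun _ => 0)
    hav ?_ ?_).2.2 fun _ _ => rfl
  · intro v hv
    have hreg := hX.fin v hv
    have h1 := fin_est ha hb hs hX.one hX.tr H hh hreg (hav v hv)
    rw [map_zero, sub_zero]
    have h2 := Ge_mul0 (Ge_list (fun l : Fin n => X l.succ.succ) (fun l => hreg _) s) h1
    have e : (s.map fun l : Fin n => X l.succ.succ).prod * ((X 1 - algebraMap Ω E (a v)) * h) =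
      (X 1 - algebraMap Ω E (a v)) * ((s.map fun l : Fin n => X l.succ.succ).prod * h) := by ring
    rwa [e] at h2
  · intro v hv
    have hreg := hX.inf v hv
    have hx0 : X 1 ≠ 0 := by
      intro h0
      rw [h0, v.ord_zero] at hv
      omega
    have h1 := inf_est ha hb hs hFd H hh hv hreg (k := s.length) hs2
    have e : X 1 * ((s.map fun l : Fin n => X l.succ.succ).prod * h) =
        (s.map fun l : Fin n => X l.succ.succ / X 1).prod * (X 1 ^ (s.length + 1) * h) := by
      rw [list_div _ hx0, pow_succ]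
      ring
    rw [e]
    exact Ge_mul0 (Ge_list (fun l : Fin n => X l.succ.succ / X 1) (fun l => hreg _) s) h1

end

/-- **HN/NM** -/
theorem nm_ (ha : StDERa) (hb : StDERb) (hr : StRES) : StNM := by
  intro n Ω E _ _ _ _ _ _ _ _ F d hs hFd X hX hF0 hd i₀ δ hδ0 hδ1 hδ c
  have : CharZero Ω := charZero_of_injective_algebraMap (algebraMap ℂ Ω).injective
  have : CharZero E := charZero_of_injective_algebraMap (algebraMap Ω E).injective
  have : FiniteDimensional Ω⟮X 1⟯ E := IsFF.finite hX.tr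
  have hD : ∀ i, ∃ D : Derivation ℂ Ω Ω, (i = i₀ → D = 0) ∧
      ∀ b, δ i (algebraMap Ω E b) = algebraMap Ω E (D b) := by
    intro i
    by_cases hi : i = i₀
    · refine ⟨0, fun _ => rfl, fun b => ?_⟩
      rw [hi, hδ0]
      simp
    · obtain ⟨_, D, hD⟩ := hδ i hi
      exact ⟨D, fun h => absurd h hi, hD⟩
  choose D hD0 hD1 using hD
  obtain ⟨dx, hdx⟩ : ∃ dx : Derivation Ω E E, ∀ g, δ i₀ g = dx g := by
    refine ⟨Derivation.mk' { toFun := δ i₀, map_add' := (δ i₀).map_add, map_smul' := ?_ } ?_,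
      fun _ => rfl⟩
    · intro b g
      rw [Algebra.smul_def, Derivation.leibniz, hδ0, smul_zero, add_zero, smul_eq_mul,
        RingHom.id_apply, Algebra.smul_def]
    · intro a b
      exact (δ i₀).leibniz a b
  have H : Hy i₀ D δ dx X := by
    refine ⟨hD0 i₀ rfl, hD1, fun i hi => (hδ i hi).1, ?_, hdx⟩
    rw [← hdx, hδ1]
  obtain ⟨c0, hc0⟩ := exists_c (n := n) hs (x := X) (j0 := 0) (by rw [hX.one]; exact one_ne_zero)
  have hY := euler_aeval hFd hF0
  have hA : ∀ i, ∑ l, MvPolynomial.aeval X (MvPolynomial.pderiv l F) * δ i (X l) = 0 := by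
    intro i
    rw [← der_aeval, hF0, map_zero]
  set h : E := W c0 X (fun i j => δ i (X j)) with hh0
  have hh : ∀ c, W c X (fun i j => δ i (X j)) = grd F X c * h := fun c =>
    W_phi _ c c0 X _ hc0 hY hA
  have hfr : 0 < Module.finrank Ω⟮X 1⟯ E := Module.finrank_pos
  have hz : h = 0 := by
    refine zero_of_trace (L := Ω⟮X 1⟯) (k := d - (n + 2)) hX.one (mem_adjoin_simple_self Ω (X 1))
      hX.gen (by omega) fun s hs2 => ?_
    exact trace_zero ha hb hr hs hFd hX H hh s (by omega)
  have hfin := hh c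
  rw [hz, mul_zero] at hfin
  exact hfin

end Pool.Agent.N767.HN
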