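import Pool.Agent.N162.HN.Stm
import Pool.Agent.N624.CV.N4

/-! Project HN (helper162), task HN/NM (helper767): determinants and spans (generalisation of
`N624/CV/N1.lean`, `N3.lean`). -/

set_option autoImplicit false
set_option linter.unusedSectionVars false

open FF Pool.Agent.W603.LV Pool.Agent.Y184.NT Pool.Agent.N162.BC IntermediateField
open Pool.Agent.N624.CV (Ge_mul0 Ge_mul1 stab mem_stab Ge_pow0)

namespace Pool.Agent.N767.HN

/-! ### Determinants -/

section det

variable {E : Type} [CommRing E] {n : ℕ}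

/-- the determinant with the rows `c`, `Y`, `A i` -/
def W (c Y : Fin (n + 2) → E) (A : Fin n → Fin (n + 2) → E) : E :=
  (Matrix.of (Fin.cons c (Fin.cons Y A : Fin (n + 1) → Fin (n + 2) → E))).det

/-- a function of the rows -/
def rw3 (a b : E) (u : Fin n → E) : Fin (n + 2) → E :=
  Fin.cons a (Fin.cons b u : Fin (n + 1) → E)

lemma cases3 {P : Fin (n + 2) → Prop} (h0 : P 0) (h1 : P 1) (h2 : ∀ l : Fin n, P l.succ.succ) :
    ∀ i, P i := by
  intro i
  refine Fin.cases h0 (fun j => ?_) i
  exact Fin.cases h1 h2 j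

lemma W_scale (a b : E) (u : Fin n → E) (c Y : Fin (n + 2) → E) (A : Fin n → Fin (n + 2) → E) :
    W (fun j => a * c j) (fun j => b * Y j) (fun i j => u i * A i j) =
      (a * (b * ∏ i, u i)) * W c Y A := by
  have h := Matrix.det_mul_column (rw3 a b u)
    (Matrix.of (Fin.cons c (Fin.cons Y A : Fin (n + 1) → Fin (n + 2) → E)))
  have hp : ∏ i, rw3 a b u i = a * (b * ∏ i, u i) := by
    rw [Fin.prod_univ_succ, Fin.prod_univ_succ]
    rfl
  rw [hp] at h
  unfold W
  rw [← h]
  congr 1
  ext i j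
  revert i
  refine cases3 rfl rfl fun l => rfl

/-- adding a multiple of the row `i₀` to the other rows -/
lemma W_add_row (i₀ : Fin n) (u : Fin n → E) (hu : u i₀ = 0) (c Y : Fin (n + 2) → E)
    (A : Fin n → Fin (n + 2) → E) :
    W c Y (fun i j => A i j + u i * A i₀ j) = W c Y A := by
  unfold W
  refine Matrix.det_eq_of_forall_row_eq_smul_add_const (rw3 0 0 u) i₀.succ.succ hu ?_
  intro i j
  revert i
  refine cases3 ?_ ?_ fun l => rfl
  · change c j = c j + 0 * _
    rw [zero_mul, add_zero]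
  · change Y j = Y j + 0 * _
    rw [zero_mul, add_zero]

/-- adding multiples of the row `Y` to the other rows -/
lemma W_add_Y (u : Fin n → E) (c Y : Fin (n + 2) → E) (A : Fin n → Fin (n + 2) → E) :
    W c Y (fun i j => A i j + u i * Y j) = W c Y A := by
  unfold W
  refine Matrix.det_eq_of_forall_row_eq_smul_add_const (rw3 0 0 u) 1 rfl ?_
  intro i j
  revert i
  refine cases3 ?_ ?_ fun l => rfl
  · change c j = c j + 0 * _
    rw [zero_mul, add_zero]
  · change Y j = Y j + 0 * _
    rw [zero_mul, add_zero]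

lemma W_expand (c Y : Fin (n + 2) → E) (A : Fin n → Fin (n + 2) → E) :
    W c Y A = ∑ j : Fin (n + 2), (-1) ^ (j : ℕ) * c j *
      ((Matrix.of (Fin.cons Y A : Fin (n + 1) → Fin (n + 2) → E)).submatrix id j.succAbove).det := by
  unfold W
  rw [Matrix.det_succ_row_zero]
  rfl

lemma W_sub (c c' Y : Fin (n + 2) → E) (A : Fin n → Fin (n + 2) → E) (r : E) :
    W (fun j => c j - r * c' j) Y A = W c Y A - r * W c' Y A := by
  rw [W_expand, W_expand, W_expand, Finset.mul_sum, ← Finset.sum_sub_distrib]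
  refine Finset.sum_congr rfl fun j _ => ?_
  ring

end det

section ker

variable {E : Type} [Field E] {n : ℕ}

lemma W_ker (φ c Y : Fin (n + 2) → E) (A : Fin n → Fin (n + 2) → E) (hφ : φ ≠ 0)
    (hc : ∑ l, φ l * c l = 0) (hY : ∑ l, φ l * Y l = 0) (hA : ∀ i, ∑ l, φ l * A i l = 0) :
    W c Y A = 0 := by
  unfold W
  apply Matrix.exists_mulVec_eq_zero_iff.1
  refine ⟨φ, hφ, ?_⟩
  have key : ∀ v : Fin (n + 2) → E, v ⬝ᵥ φ = ∑ l, φ l * v l := by
    intro v
    rw [dotProduct]
    exact Finset.sum_congr rfl fun l _ => mul_comm _ _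
  ext i
  revert i
  refine cases3 ?_ ?_ fun l => ?_
  · exact (key c).trans hc
  · exact (key Y).trans hY
  · exact (key (A l)).trans (hA l)

lemma W_phi (φ c c0 Y : Fin (n + 2) → E) (A : Fin n → Fin (n + 2) → E)
    (hc0 : ∑ l, φ l * c0 l = 1) (hY : ∑ l, φ l * Y l = 0) (hA : ∀ i, ∑ l, φ l * A i l = 0) :
    W c Y A = (∑ l, φ l * c l) * W c0 Y A := by
  have hφ : φ ≠ 0 := by
    rintro rfl
    simp at hc0
  have h := W_ker φ (fun j => c j - (∑ l, φ l * c l) * c0 j) Y A hφ (by
    have : ∀ j, φ j * (c j - (∑ l, φ l * c l) * c0 j) =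
        φ j * c j - (∑ l, φ l * c l) * (φ j * c0 j) := by
      intro j
      ring
    simp only [this]
    rw [Finset.sum_sub_distrib, ← Finset.mul_sum, hc0, mul_one, sub_self]) hY hA
  rw [W_sub] at h
  exact sub_eq_zero.1 h

end ker

/-! ### Orders -/

section ord

variable {Ω E : Type} [Field Ω] [Field E] [Algebra Ω E] {v : Place Ω E}

lemma Ge_det_gen {m : ℕ} (M : Matrix (Fin m) (Fin m) E) (w : Fin m → ℤ)
    (h : ∀ i j, Ge v (w i) (M i j)) : Ge v (∑ i, w i) M.det := by
  rw [Matrix.det_apply']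
  refine Ge.sum _ _ fun σ _ => ?_
  refine Ge_mul0 ?_ ?_
  · exact Ge.intCast _
  · have h1 := Ge.prod Finset.univ (fun i => M (σ i) i) (fun i => w (σ i))
      (fun i _ => h (σ i) i)
    rwa [Equiv.sum_comp σ w] at h1

lemma Ge_det {n : ℕ} (i₀ : Fin n) {c Y : Fin (n + 2) → E} {A : Fin n → Fin (n + 2) → E}
    (hc : ∀ j, Ge v 0 (c j)) (hY : ∀ j, Ge v 0 (Y j)) (hA : ∀ i j, i ≠ i₀ → Ge v 0 (A i j))
    (h0 : ∀ j, Ge v 1 (A i₀ j)) : Ge v 1 (W c Y A) := by
  classical
  have h := Ge_det_gen (v := v) (Matrix.of (Fin.cons c (Fin.cons Y A : Fin (n + 1) →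
    Fin (n + 2) → E))) (Pi.single i₀.succ.succ 1) (by
      intro i j
      revert i
      refine cases3 ?_ ?_ fun l => ?_
      · rw [Pi.single_eq_of_ne (by exact (Fin.succ_ne_zero _).symm)]
        exact hc j
      · rw [Pi.single_eq_of_ne (by
          intro h
          have h' := congrArg Fin.val h
          simp at h')]
        exact hY j
      · by_cases hl : l = i₀
        · subst hl
          rw [Pi.single_eq_same]
          exact h0 j
        · rw [Pi.single_eq_of_ne (fun h => hl (Fin.succ_injective _ (Fin.succ_injective _ h)))]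
          exact hA l j hl)
  rw [Finset.sum_pi_single', if_pos (Finset.mem_univ _)] at h
  exact h

/-- congruence of the values of polynomials -/
lemma aeval_congr [Algebra ℂ Ω] [Algebra ℂ E] [IsScalarTower ℂ Ω E] {m : ℕ} {Y : Fin m → E}
    {p : Fin m → Ω} (hY : ∀ j, Ge v 0 (Y j)) (hp : ∀ j, Ge v 1 (Y j - algebraMap Ω E (p j)))
    (G : MvPolynomial (Fin m) ℂ) :
    Ge v 0 (MvPolynomial.aeval Y G) ∧
    Ge v 1 (MvPolynomial.aeval Y G - algebraMap Ω E (MvPolynomial.aeval p G)) := by
  induction G using MvPolynomial.induction_on with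
  | C a =>
    rw [MvPolynomial.aeval_C, MvPolynomial.aeval_C, IsScalarTower.algebraMap_apply ℂ Ω E]
    exact ⟨Ge.const _, by rw [sub_self]; exact Ge.zero⟩
  | add f g hf hg =>
    rw [map_add, map_add, map_add]
    refine ⟨hf.1.add hg.1, ?_⟩
    have := hf.2.add hg.2
    convert this using 1
    ring
  | mul_X f i hf =>
    rw [map_mul, map_mul, map_mul, MvPolynomial.aeval_X, MvPolynomial.aeval_X]
    refine ⟨Ge_mul0 hf.1 (hY i), ?_⟩
    have h1 := Ge_mul0 hf.1 (hp i)
    have h2 := Ge_mul1 hf.2 (Ge.const (P := v) (p i))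
    have := h1.add h2
    convert this using 1
    ring

end ord

/-! ### Monomials of low degree span -/

section span

variable {Ω E : Type} [Field Ω] [Field E] [Algebra Ω E] {n : ℕ}

/-- the span of the products of at most `k` of the elements `y l` -/
def V (L : IntermediateField Ω E) (y : Fin n → E) (k : ℕ) : Submodule L E :=
  Submodule.span L {g | ∃ s : List (Fin n), s.length ≤ k ∧ g = (s.map y).prod}

variable {L : IntermediateField Ω E} {y : Fin n → E}

lemma V_mem {s : List (Fin n)} {k : ℕ} (h : s.length ≤ k) : (s.map y).prod ∈ V L y k :=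
  Submodule.subset_span ⟨s, h, rfl⟩

lemma V_one {k : ℕ} : (1 : E) ∈ V L y k := by
  have := V_mem (L := L) (y := y) (s := []) (k := k) (Nat.zero_le _)
  simpa using this

lemma V_mono {k m : ℕ} (h : k ≤ m) : V L y k ≤ V L y m := by
  apply Submodule.span_mono
  rintro g ⟨s, hs, rfl⟩
  exact ⟨s, hs.trans h, rfl⟩

lemma V_y {k : ℕ} (l : Fin n) {g : E} (hg : g ∈ V L y k) : y l * g ∈ V L y (k + 1) := by
  refine Submodule.span_induction (p := fun g _ => y l * g ∈ V L y (k + 1)) ?_ ?_ ?_ ?_ hg
  · rintro _ ⟨s, hs, rfl⟩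
    have h := V_mem (L := L) (y := y) (s := l :: s) (k := k + 1) (by simpa using hs)
    simpa using h
  · rw [mul_zero]
    exact Submodule.zero_mem _
  · intro a b _ _ ha hb
    change y l * (a + b) ∈ _
    rw [mul_add]
    exact Submodule.add_mem _ ha hb
  · intro c a _ ha
    change y l * (c • a) ∈ _
    rw [mul_smul_comm]
    exact Submodule.smul_mem _ _ ha

lemma V_top {X : Fin (n + 2) → E} (hX0 : X 0 = 1) (hX1 : X 1 ∈ L)
    (hgen : adjoin Ω (Set.range X) = ⊤) [FiniteDimensional L E] {k : ℕ}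
    (h : V L (fun l : Fin n => X l.succ.succ) (k + 1) ≤ V L (fun l : Fin n => X l.succ.succ) k) :
    V L (fun l : Fin n => X l.succ.succ) k = ⊤ := by
  set M := V L (fun l : Fin n => X l.succ.succ) k with hM
  have h2 : ∀ l : Fin n, X l.succ.succ ∈ stab M := fun l => mem_stab.2 fun f hf => h (V_y l hf)
  have hinv : ∀ g ∈ stab M, g⁻¹ ∈ stab M := by
    intro g hg
    exact Subalgebra.inv_mem_of_algebraic (A := stab M) (x := ⟨g, hg⟩)
      (Algebra.IsAlgebraic.isAlgebraic (R := L) (g : E))
  set S : IntermediateField L E := (stab M).toIntermediateField hinv with hS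
  have hSm : ∀ g, g ∈ S ↔ g ∈ stab M := fun g => Iff.rfl
  have hle : adjoin Ω (Set.range X) ≤ S.restrictScalars Ω := by
    rw [adjoin_le_iff]
    rintro _ ⟨j, rfl⟩
    change X j ∈ S
    revert j
    refine cases3 ?_ ?_ fun l => ?_
    · rw [hX0]
      exact S.one_mem
    · exact S.algebraMap_mem ⟨X 1, hX1⟩
    · exact h2 l
  rw [hgen, top_le_iff] at hle
  rw [eq_top_iff]
  intro g _
  have hg : g ∈ S.restrictScalars Ω := by
    rw [hle]
    exact IntermediateField.mem_top
  have hg2 : g ∈ stab M := hg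
  have h1 : (1 : E) ∈ M := V_one
  have := mem_stab.1 hg2 1 h1
  rwa [mul_one] at this

lemma V_dim {X : Fin (n + 2) → E} (hX0 : X 0 = 1) (hX1 : X 1 ∈ L)
    (hgen : adjoin Ω (Set.range X) = ⊤) [FiniteDimensional L E] (k : ℕ) :
    V L (fun l : Fin n => X l.succ.succ) k = ⊤ ∨
      k + 1 ≤ Module.finrank L (V L (fun l : Fin n => X l.succ.succ) k) := by
  induction k with
  | zero =>
    right
    rw [zero_add, Submodule.one_le_finrank_iff]
    intro h
    have h1 : (1 : E) ∈ V L (fun l : Fin n => X l.succ.succ) 0 := V_one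
    rw [h, Submodule.mem_bot] at h1
    exact one_ne_zero h1
  | succ k ih =>
    rcases ih with ih | ih
    · left
      rw [eq_top_iff, ← ih]
      exact V_mono (Nat.le_succ k)
    · by_cases h : V L (fun l : Fin n => X l.succ.succ) (k + 1) ≤
          V L (fun l : Fin n => X l.succ.succ) k
      · left
        rw [eq_top_iff, ← V_top hX0 hX1 hgen h]
        exact V_mono (Nat.le_succ k)
      · right
        have hlt : V L (fun l : Fin n => X l.succ.succ) k <
            V L (fun l : Fin n => X l.succ.succ) (k + 1) :=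
          lt_of_le_not_ge (V_mono (Nat.le_succ k)) h
        have := Submodule.finrank_lt_finrank_of_lt hlt
        omega

lemma V_eq_top {X : Fin (n + 2) → E} (hX0 : X 0 = 1) (hX1 : X 1 ∈ L)
    (hgen : adjoin Ω (Set.range X) = ⊤) [FiniteDimensional L E] {k : ℕ}
    (hk : Module.finrank L E ≤ k + 1) : V L (fun l : Fin n => X l.succ.succ) k = ⊤ := by
  rcases V_dim hX0 hX1 hgen k with h | h
  · exact h
  · apply Submodule.eq_top_of_finrank_eq
    exact le_antisymm (Submodule.finrank_le _) (hk.trans h)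

lemma zero_of_trace {X : Fin (n + 2) → E} (hX0 : X 0 = 1) (hX1 : X 1 ∈ L)
    (hgen : adjoin Ω (Set.range X) = ⊤) [FiniteDimensional L E] [CharZero E] {k : ℕ}
    (hk : Module.finrank L E ≤ k + 1) {h : E}
    (ht : ∀ s : List (Fin n), s.length ≤ k →
      Algebra.trace L E ((s.map fun l : Fin n => X l.succ.succ).prod * h) = 0) : h = 0 := by
  by_contra h0
  have hV := V_eq_top hX0 hX1 hgen hk
  have key : ∀ g ∈ V L (fun l : Fin n => X l.succ.succ) k, Algebra.trace L E (g * h) = 0 := by
    intro g hg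
    refine Submodule.span_induction (p := fun g _ => Algebra.trace L E (g * h) = 0)
      ?_ ?_ ?_ ?_ hg
    · rintro _ ⟨s, hs, rfl⟩
      exact ht s hs
    · change Algebra.trace L E (0 * h) = 0
      rw [zero_mul, map_zero]
    · intro a b _ _ ha hb
      change Algebra.trace L E ((a + b) * h) = 0
      rw [add_mul, map_add, ha, hb, add_zero]
    · intro c a _ ha
      change Algebra.trace L E ((c • a) * h) = 0
      rw [smul_mul_assoc, map_smul, ha, smul_zero]
  have h1 := key h⁻¹ (by rw [hV]; exact Submodule.mem_top)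
  rw [inv_mul_cancel₀ h0] at h1
  have h2 := Algebra.trace_algebraMap (R := L) (S := E) (1 : L)
  rw [map_one, h1] at h2
  have h3 : (Module.finrank L E : L) = 0 := by
    simpa using h2.symm
  have h4 : Module.finrank L E = 0 := by
    have h6 := congrArg (algebraMap L E) h3
    rw [map_natCast, map_zero] at h6
    exact_mod_cast h6
  have h5 : 0 < Module.finrank L E := Module.finrank_pos
  omega

end span

end Pool.Agent.N767.HN
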